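import Pool.Agent.N658.FF.Stm5
import Pool.Agent.Y65.PE.Bound
import Pool.Agent.Y70.PE.Region

/-! # Global approximation implies local approximation -/

open scoped BigOperators ComplexConjugate Classical

noncomputable section

namespace Pool.Agent.N342.FF

open Pool.Agent.Y738.PE

variable {d L : ℕ} [NeZero L] (R : Finset (ℤ × ℤ)) (v : Site L)
  (B : (R → Fin d) → (R → Fin d) → ℂ)

/-- the sesquilinear form -/
def eR (f g : Conf d L → ℂ) : ℂ :=
  ∑ s : Conf d L, ∑ s' : Conf d L,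
    if (∀ w : Site L, (∀ p ∈ R, w ≠ (v.1 + (p.1 : ZMod L), v.2 + (p.2 : ZMod L))) → s w = s' w)
    then conj (f s) * B (res R s v) (res R s' v) * g s' else 0

lemma quad (a b : Conf d L → ℂ) (t : ℝ) :
    expecR R (fun s => a s + (t : ℂ) * b s) v B =
      expecR R a v B + (t : ℂ) * (eR R v B a b + eR R v B b a) + (t : ℂ) ^ 2 * expecR R b v B := by
  unfold expecR eR
  rw [← Finset.sum_add_distrib, Finset.mul_sum, Finset.mul_sum, ← Finset.sum_add_distrib,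
    ← Finset.sum_add_distrib]
  refine Finset.sum_congr rfl fun s _ => ?_
  rw [← Finset.sum_add_distrib, Finset.mul_sum, Finset.mul_sum, ← Finset.sum_add_distrib,
    ← Finset.sum_add_distrib]
  refine Finset.sum_congr rfl fun s' _ => ?_
  split_ifs with h
  · rw [map_add, map_mul, Complex.conj_ofReal]
    ring
  · ring

lemma nrm_par (a b : Conf d L → ℂ) (t : ℝ) :
    nrm (fun s => a s + (t : ℂ) * b s) + nrm (fun s => a s + ((-t : ℝ) : ℂ) * b s) =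
      2 * nrm a + 2 * t ^ 2 * nrm b := by
  unfold nrm
  rw [← Finset.sum_add_distrib, Finset.mul_sum, Finset.mul_sum, ← Finset.sum_add_distrib]
  refine Finset.sum_congr rfl fun s _ => ?_
  have h := parallelogram_law_with_norm ℝ (a s) ((t : ℂ) * b s)
  have h1 : a s + ((-t : ℝ) : ℂ) * b s = a s - (t : ℂ) * b s := by
    push_cast
    ring
  simp only
  rw [h1]
  have h2 : ‖(t : ℂ) * b s‖ ^ 2 = t ^ 2 * ‖b s‖ ^ 2 := by
    rw [norm_mul, mul_pow, Complex.norm_real, Real.norm_eq_abs, sq_abs]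
  nlinarith [h]

lemma nrm_le_add (a b : Conf d L → ℂ) {δ : ℝ} (hδ : 0 < δ) :
    nrm (fun s => a s + b s) ≤ (1 + δ) * nrm a + (1 + 1 / δ) * nrm b := by
  unfold nrm
  rw [Finset.mul_sum, Finset.mul_sum, ← Finset.sum_add_distrib]
  refine Finset.sum_le_sum fun s _ => ?_
  have h1 : ‖a s + b s‖ ≤ ‖a s‖ + ‖b s‖ := norm_add_le _ _
  have h2 : ‖a s + b s‖ ^ 2 ≤ (‖a s‖ + ‖b s‖) ^ 2 := pow_le_pow_left₀ (norm_nonneg _) h1 2
  have h3 : 2 * ‖a s‖ * ‖b s‖ ≤ δ * ‖a s‖ ^ 2 + 1 / δ * ‖b s‖ ^ 2 := by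
    have h4 : 0 ≤ (δ * ‖a s‖ - ‖b s‖) ^ 2 / δ := by positivity
    have h5 : (δ * ‖a s‖ - ‖b s‖) ^ 2 / δ =
        δ * ‖a s‖ ^ 2 + 1 / δ * ‖b s‖ ^ 2 - 2 * ‖a s‖ * ‖b s‖ := by
      field_simp
      ring
    linarith
  nlinarith

/-- stability of the normalised expectations -/
lemma stab (hB : ∀ f : Conf d L → ℂ, ‖expecR R f v B‖ ≤ nrm f) (f g : Conf d L → ℂ) {δ : ℝ}
    (hδ : 0 < δ) (hδ1 : δ ≤ 1 / 12) (hf : nrm f = 1)
    (hg : nrm (fun s => g s - f s) ≤ δ ^ 2) :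
    nrm g ≠ 0 ∧ ‖expecR R f v B / (nrm f : ℂ) - expecR R g v B / (nrm g : ℂ)‖ ≤ 6 * δ := by
  obtain ⟨e, he⟩ : ∃ e : Conf d L → ℂ, e = fun s => g s - f s := ⟨_, rfl⟩
  rw [← he] at hg
  have hge : g = fun s => f s + e s := by
    funext s
    rw [he]
    ring
  have hge1 : g = fun s => f s + ((1 : ℝ) : ℂ) * e s := by
    rw [hge]
    funext s
    push_cast
    ring
  -- the norm of `g`
  have hN1 : nrm g ≤ 1 + 3 * δ := by
    have h := nrm_le_add f e hδ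
    rw [← hge, hf] at h
    have h2 : (1 + 1 / δ) * nrm e ≤ (1 + 1 / δ) * δ ^ 2 :=
      mul_le_mul_of_nonneg_left hg (by positivity)
    have h3 : (1 + 1 / δ) * δ ^ 2 = δ ^ 2 + δ := by field_simp
    nlinarith
  have hN2 : 1 - 3 * δ ≤ nrm g := by
    have h := nrm_le_add g (fun s => -e s) hδ
    have h1 : (fun s => g s + -e s) = f := by
      funext s
      rw [he]
      ring
    have h4 : nrm (fun s => -e s) = nrm e := by
      unfold nrm
      simp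
    rw [h1, hf, h4] at h
    have h2 : (1 + 1 / δ) * nrm e ≤ (1 + 1 / δ) * δ ^ 2 :=
      mul_le_mul_of_nonneg_left hg (by positivity)
    have h3 : (1 + 1 / δ) * δ ^ 2 = δ ^ 2 + δ := by field_simp
    by_contra hlt
    push Not at hlt
    nlinarith
  have hgpos : 0 < nrm g := by linarith
  refine ⟨hgpos.ne', ?_⟩
  -- the cross term
  have hX : ‖eR R v B f e + eR R v B e f‖ ≤ 2 * δ := by
    have h1 := quad R v B f e (1 / δ)
    have h2 := quad R v B f e (-(1 / δ))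
    have h3 : (2 * ((1 / δ : ℝ) : ℂ)) * (eR R v B f e + eR R v B e f) =
        expecR R (fun s => f s + ((1 / δ : ℝ) : ℂ) * e s) v B -
        expecR R (fun s => f s + ((-(1 / δ) : ℝ) : ℂ) * e s) v B := by
      rw [h1, h2]
      push_cast
      ring
    have h4 : ‖(2 * ((1 / δ : ℝ) : ℂ)) * (eR R v B f e + eR R v B e f)‖ ≤ 2 + 2 * (1 / δ) ^ 2 * δ ^ 2 := by
      rw [h3]
      refine (norm_sub_le _ _).trans ?_
      refine (add_le_add (hB _) (hB _)).trans ?_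
      rw [nrm_par, hf, mul_one]
      have : 2 * (1 / δ) ^ 2 * nrm e ≤ 2 * (1 / δ) ^ 2 * δ ^ 2 :=
        mul_le_mul_of_nonneg_left hg (by positivity)
      linarith
    have h5 : 2 * (1 / δ) ^ 2 * δ ^ 2 = 2 := by field_simp
    rw [h5, norm_mul, norm_mul, Complex.norm_real, Real.norm_of_nonneg (by positivity)] at h4
    simp only [Complex.norm_ofNat] at h4
    have h6 : ‖eR R v B f e + eR R v B e f‖ = δ / 2 * (2 * (1 / δ) *
        ‖eR R v B f e + eR R v B e f‖) := by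
      field_simp
    rw [h6]
    nlinarith
  have hq : ‖expecR R f v B - expecR R g v B‖ ≤ 3 * δ := by
    have h1 := quad R v B f e 1
    rw [← hge1] at h1
    have h2 : expecR R f v B - expecR R g v B =
        -((eR R v B f e + eR R v B e f) + expecR R e v B) := by
      rw [h1]
      push_cast
      ring
    rw [h2, norm_neg]
    refine (norm_add_le _ _).trans ?_
    have h3 := hB e
    nlinarith
  have hN3 : ‖expecR R g v B - expecR R g v B / (nrm g : ℂ)‖ ≤ 3 * δ := by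
    have h1 : expecR R g v B - expecR R g v B / (nrm g : ℂ) =
        (expecR R g v B / (nrm g : ℂ)) * ((nrm g - 1 : ℝ) : ℂ) := by
      have : (nrm g : ℂ) ≠ 0 := by exact_mod_cast hgpos.ne'
      push_cast
      field_simp
    rw [h1, norm_mul, norm_div, Complex.norm_real, Complex.norm_real,
      Real.norm_of_nonneg hgpos.le, Real.norm_eq_abs]
    have h2 : ‖expecR R g v B‖ / nrm g ≤ 1 := by
      rw [div_le_one hgpos]
      exact hB g
    have h3 : |nrm g - 1| ≤ 3 * δ := by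
      rw [abs_le]
      constructor <;> linarith
    calc ‖expecR R g v B‖ / nrm g * |nrm g - 1| ≤ 1 * (3 * δ) :=
          mul_le_mul h2 h3 (abs_nonneg _) zero_le_one
      _ = 3 * δ := one_mul _
  rw [hf]
  have h7 : expecR R f v B / ((1 : ℝ) : ℂ) - expecR R g v B / (nrm g : ℂ) =
      (expecR R f v B - expecR R g v B) + (expecR R g v B - expecR R g v B / (nrm g : ℂ)) := by
    push_cast
    ring
  rw [h7]
  refine (norm_add_le _ _).trans ?_
  linarith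

theorem globLoc : Pool.Agent.N658.FF.StmGlobLoc := by
  intro d hd Ψ hnorm happ R hconv
  obtain ⟨r, hr, -, hboth⟩ := both d hd R
  refine (hboth Ψ hconv).1 ?_
  obtain ⟨c₁, k₁, hconv⟩ := hconv
  obtain ⟨L₀, hnorm⟩ := hnorm
  obtain ⟨C, L₁, happ⟩ := happ
  obtain ⟨r₂, a, hr₂, hreg⟩ := Pool.Agent.Y70.PE.region d R
  obtain ⟨C', hC'⟩ := exists_nat_ge C
  obtain ⟨M₀, hM₀⟩ : ∃ M₀ : ℕ, M₀ = 16 * r + c₁ * 2 ^ k₁ + 16 + L₀ + L₁ + r₂ := ⟨_, rfl⟩
  refine ⟨M₀ ^ (C' + 1), (k₁ + 1) * (C' + 1), ?_⟩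
  intro ε hε hε1
  obtain ⟨x, hx⟩ : ∃ x : ℝ, x = 1 / ε := ⟨_, rfl⟩
  have hx1 : 1 ≤ x := by rw [hx, le_div_iff₀ hε]; linarith
  have hx0 : 0 < x := by linarith
  rw [← hx]
  obtain ⟨m, hm⟩ : ∃ m : ℕ, m = ⌈16 * (r : ℝ) * x⌉₊ + ⌈(c₁ : ℝ) * (2 * x) ^ k₁⌉₊ + ⌈12 * x⌉₊ +
    L₀ + L₁ + r₂ + 1 := ⟨_, rfl⟩
  have hi : NeZero m := ⟨by omega⟩
  have hm1 : 16 * (r : ℝ) * x ≤ m := by
    refine (Nat.le_ceil _).trans ?_
    exact_mod_cast (by omega : ⌈16 * (r : ℝ) * x⌉₊ ≤ m)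
  have hm2 : (c₁ : ℝ) * (2 * x) ^ k₁ ≤ m := by
    refine (Nat.le_ceil _).trans ?_
    exact_mod_cast (by omega : ⌈(c₁ : ℝ) * (2 * x) ^ k₁⌉₊ ≤ m)
  have hm3 : 12 * x ≤ m := by
    refine (Nat.le_ceil _).trans ?_
    exact_mod_cast (by omega : ⌈12 * x⌉₊ ≤ m)
  have hmpos : (0 : ℝ) < m := by linarith
  have hmup : (m : ℝ) ≤ M₀ * x ^ (k₁ + 1) := by
    have e1 := (Nat.ceil_lt_add_one (a := 16 * (r : ℝ) * x) (by positivity)).le
    have e2 := (Nat.ceil_lt_add_one (a := (c₁ : ℝ) * (2 * x) ^ k₁) (by positivity)).le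
    have e3 := (Nat.ceil_lt_add_one (a := 12 * x) (by positivity)).le
    have e4 : (m : ℝ) ≤ 16 * (r : ℝ) * x + (c₁ : ℝ) * (2 * x) ^ k₁ + 12 * x + L₀ + L₁ + r₂ + 4 := by
      rw [hm]
      push_cast
      linarith
    have hq : 1 ≤ x ^ (k₁ + 1) := one_le_pow₀ hx1
    have hq1 : x ≤ x ^ (k₁ + 1) := by
      calc x = x ^ 1 := (pow_one x).symm
        _ ≤ x ^ (k₁ + 1) := pow_le_pow_right₀ hx1 (by omega)
    have hq2 : x ^ k₁ ≤ x ^ (k₁ + 1) := pow_le_pow_right₀ hx1 (by omega)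
    rw [hM₀]
    push_cast
    rw [mul_pow] at e4
    have f1 : 16 * (r : ℝ) * x ≤ 16 * (r : ℝ) * x ^ (k₁ + 1) :=
      mul_le_mul_of_nonneg_left hq1 (by positivity)
    have f2 : (c₁ : ℝ) * (2 ^ k₁ * x ^ k₁) ≤ (c₁ : ℝ) * 2 ^ k₁ * x ^ (k₁ + 1) := by
      rw [← mul_assoc]
      exact mul_le_mul_of_nonneg_left hq2 (by positivity)
    have f3 : (L₀ : ℝ) ≤ L₀ * x ^ (k₁ + 1) := le_mul_of_one_le_right (by positivity) hq
    have f4 : (L₁ : ℝ) ≤ L₁ * x ^ (k₁ + 1) := le_mul_of_one_le_right (by positivity) hq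
    have f5 : (r₂ : ℝ) ≤ r₂ * x ^ (k₁ + 1) := le_mul_of_one_le_right (by positivity) hq
    nlinarith
  have hbase : 1 ≤ (M₀ : ℝ) * x ^ (k₁ + 1) := by
    refine le_trans ?_ hmup
    exact_mod_cast (by omega : 1 ≤ m)
  obtain ⟨D, ψ, hD, hψ, hψn⟩ := happ m (by omega)
  obtain ⟨A, hA⟩ := hψ
  have hδ : (m : ℝ) ^ (-(1 : ℝ)) = 1 / m := by
    rw [Real.rpow_neg_one, one_div]
  simp only at hψn
  rw [hδ] at hψn
  have hδpos : (0 : ℝ) < 1 / m := by positivity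
  have hΨ1 : nrm (Ψ m) = 1 := hnorm m (by omega)
  have hbd : ∀ (v : Site m) (B : (R → Fin d) → (R → Fin d) → ℂ), Contr B →
      ∀ f : Conf d m → ℂ, ‖expecR R f v B‖ ≤ nrm f := by
    intro v B hB f
    obtain ⟨B', hB', hreg'⟩ := hreg B hB
    rw [hreg' m (by omega) f v]
    exact Pool.Agent.Y65.PE.bound d m r₂ (by omega) f _ B' hB'
  have hpe : ψ = pepsN A := by
    rw [hA]
    rfl
  have hdiff : nrm (fun s => ψ s - Ψ m s) ≤ (1 / (m : ℝ)) ^ 2 := by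
    have h1 : Real.sqrt (nrm (fun s => ψ s - Ψ m s)) ≤ 1 / m := hψn
    exact (Real.sqrt_le_left hδpos.le).1 h1
  have hxe : x * ε = 1 := by
    rw [hx]
    field_simp
  have hδ12 : 1 / (m : ℝ) ≤ ε / 12 := by
    rw [div_le_iff₀ hmpos]
    nlinarith
  have hst : ∀ (v : Site m) (B : (R → Fin d) → (R → Fin d) → ℂ), Contr B →
      nrm ψ ≠ 0 ∧ ‖expecR R (Ψ m) v B / (nrm (Ψ m) : ℂ) - expecR R ψ v B / (nrm ψ : ℂ)‖ ≤
        6 * (1 / m) := fun v B hB =>
    stab R v B (hbd v B hB) (Ψ m) ψ hδpos (by linarith) hΨ1 hdiff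
  have hnz : nrm ψ ≠ 0 := by
    refine (hst 0 (fun _ _ => 0) ?_).1
    intro f
    have : nrm (fun σ : R → Fin d => ∑ τ, (0 : ℂ) * f τ) = 0 := by
      unfold nrm
      simp
    rw [this]
    exact nrm_nonneg f
  refine ⟨m, hi, D, A, ?_, ?_, ?_, ?_, ?_⟩
  · rw [div_eq_mul_one_div, ← hx]
    push_cast
    linarith
  · push_cast
    rw [pow_mul, ← mul_pow]
    refine hmup.trans ?_
    calc (M₀ : ℝ) * x ^ (k₁ + 1) = ((M₀ : ℝ) * x ^ (k₁ + 1)) ^ 1 := (pow_one _).symm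
      _ ≤ ((M₀ : ℝ) * x ^ (k₁ + 1)) ^ (C' + 1) := pow_le_pow_right₀ hbase (by omega)
  · push_cast
    rw [pow_mul, ← mul_pow]
    refine hD.trans ?_
    rw [pow_one]
    have hlog : 0 ≤ Real.log m := Real.log_nonneg (by exact_mod_cast (by omega : 1 ≤ m))
    have h1 : Real.exp (C * Real.log m) ≤ (m : ℝ) ^ C' := by
      rw [← Real.rpow_natCast, Real.rpow_def_of_pos hmpos, mul_comm (Real.log (m : ℝ))]
      exact Real.exp_le_exp.2 (mul_le_mul_of_nonneg_right hC' hlog)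
    refine h1.trans ?_
    refine (pow_le_pow_left₀ hmpos.le hmup C').trans ?_
    exact pow_le_pow_right₀ hbase (by omega)
  · rw [← hpe]
    exact hnz
  · rw [← hpe]
    have h1 : Close R (Ψ m) (Ψ m) (ε / 2) := by
      refine hconv (ε / 2) (by linarith) (by linarith) m m ?_ ?_ <;>
      · have : 1 / (ε / 2) = 2 * x := by
          rw [hx]
          field_simp
        rw [this]
        exact hm2
    intro u v B hB
    have h2 := h1 u v B hB
    have h3 := (hst v B hB).2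
    have h4 : expecR R (Ψ m) u B / (nrm (Ψ m) : ℂ) - expecR R ψ v B / (nrm ψ : ℂ) =
        (expecR R (Ψ m) u B / (nrm (Ψ m) : ℂ) - expecR R (Ψ m) v B / (nrm (Ψ m) : ℂ)) +
        (expecR R (Ψ m) v B / (nrm (Ψ m) : ℂ) - expecR R ψ v B / (nrm ψ : ℂ)) := by ring
    rw [h4]
    refine (norm_add_le _ _).trans ?_
    linarith

end Pool.Agent.N342.FF
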